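import Mathlib
import Pool.Agent.Helper150.Walsh.Main

set_option autoImplicit false

namespace Pool.Agent.Results.MP_8bf294_an.PlanarCase

open MeasureTheory Finset Pool.Agent.Helper150.Walsh

lemma disc_eq (r : ℕ) {m : ℕ} (ξ : Fin m → Fin 2 → ℝ) (w : Fin m → ℝ) (t : Fin 2 → ℝ) :
    (∑ μ : Fin m, w μ * ∏ j : Fin 2,
        (if ξ μ j < t j then (t j - ξ μ j) ^ (r - 1) / ((r - 1).factorial : ℝ) else 0))
      - ∏ j : Fin 2, (t j ^ r / (r.factorial : ℝ))
    = disc r w (fun i => ξ i 0) (fun i => ξ i 1) (t 0, t 1) := by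
  unfold disc ker pw
  simp only [Fin.prod_univ_two]

lemma transfer (r : ℕ) {m : ℕ} (ξ : Fin m → Fin 2 → ℝ) (w : Fin m → ℝ) (B : ℝ)
    (h : ∀ᵐ t ∂((volume : Measure (Fin 2 → ℝ)).restrict (Set.Icc 0 1)),
      |disc r w (fun i => ξ i 0) (fun i => ξ i 1) (t 0, t 1)| ≤ B) :
    ∀ᵐ z ∂(mu1.prod mu1), |disc r w (fun i => ξ i 0) (fun i => ξ i 1) z| ≤ B := by
  rw [ae_restrict_iff' measurableSet_Icc] at h
  have h2 := (volume_preserving_finTwoArrow ℝ).symm.quasiMeasurePreserving.ae h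
  have h3 : (mu1.prod mu1) = (volume : Measure (ℝ × ℝ)).restrict (Set.Ico 0 1 ×ˢ Set.Ico 0 1) := by
    unfold mu1
    rw [Measure.prod_restrict]
    rfl
  rw [h3, ae_restrict_iff' (measurableSet_Ico.prod measurableSet_Ico)]
  filter_upwards [h2] with z hz hz'
  have hmem : (MeasurableEquiv.finTwoArrow.symm z : Fin 2 → ℝ) ∈ Set.Icc (0 : Fin 2 → ℝ) 1 := by
    constructor
    · intro j
      fin_cases j
      · exact hz'.1.1
      · exact hz'.2.1
    · intro j
      fin_cases j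
      · exact hz'.1.2.le
      · exact hz'.2.2.le
  exact hz hmem

/-- Lower bound in dimension two with the exact order, all smoothness parameters `r ≥ 1`, arbitrary knots and
weights; in the essential supremum norm and pointwise. -/
theorem result :
    ∀ r : ℕ, 1 ≤ r →
      ∃ C : ℝ, 0 < C ∧
        ∀ m : ℕ, 1 ≤ m →
          ∀ ξ : Fin m → Fin 2 → ℝ, (∀ μ j, ξ μ j ∈ Set.Icc (0:ℝ) 1) →
            ∀ w : Fin m → ℝ,
              ENNReal.ofReal (C * Real.log (m:ℝ) / (m:ℝ) ^ r) ≤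
                eLpNorm (fun t : Fin 2 → ℝ => (∑ μ : Fin m, w μ * ∏ j : Fin 2,
                      (if ξ μ j < t j then (t j - ξ μ j) ^ (r - 1) / ((r - 1).factorial : ℝ) else 0))
                    - ∏ j : Fin 2, (t j ^ r / (r.factorial : ℝ))) ⊤ (volume.restrict (Set.Icc 0 1))
              ∧ ∃ t : Fin 2 → ℝ, (∀ j, t j ∈ Set.Icc (0:ℝ) 1) ∧
                C * Real.log (m:ℝ) / (m:ℝ) ^ r ≤
                  |(∑ μ : Fin m, w μ * ∏ j : Fin 2,
                      (if ξ μ j < t j then (t j - ξ μ j) ^ (r - 1) / ((r - 1).factorial : ℝ) else 0))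
                    - ∏ j : Fin 2, (t j ^ r / (r.factorial : ℝ))| := by
  intro r hr
  obtain ⟨C, hC, hlow⟩ := lower_log r hr
  refine ⟨C/2, by positivity, ?_⟩
  intro m hm ξ hξ w
  have hm0 : (0:ℝ) < m := by exact_mod_cast hm
  have hlog : 0 ≤ Real.log m := Real.log_nonneg (by exact_mod_cast hm)
  have hu : ∀ i, 0 ≤ (fun i => ξ i 0) i := fun i => (hξ i 0).1
  have hv : ∀ i, 0 ≤ (fun i => ξ i 1) i := fun i => (hξ i 1).1
  simp only [disc_eq]
  constructor
  · by_cases htop : eLpNorm (fun t : Fin 2 → ℝ => disc r w (fun i => ξ i 0) (fun i => ξ i 1) (t 0, t 1)) ⊤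
        (volume.restrict (Set.Icc 0 1)) = ⊤
    · rw [htop]; exact le_top
    · have hae : ∀ᵐ t ∂((volume : Measure (Fin 2 → ℝ)).restrict (Set.Icc 0 1)),
          |disc r w (fun i => ξ i 0) (fun i => ξ i 1) (t 0, t 1)| ≤
          (eLpNorm (fun t : Fin 2 → ℝ => disc r w (fun i => ξ i 0) (fun i => ξ i 1) (t 0, t 1)) ⊤
            (volume.restrict (Set.Icc 0 1))).toReal := by
        rw [eLpNorm_exponent_top] at htop ⊢
        filter_upwards [ae_le_eLpNormEssSup (f := fun t : Fin 2 → ℝ =>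
          disc r w (fun i => ξ i 0) (fun i => ξ i 1) (t 0, t 1)) (μ := volume.restrict (Set.Icc 0 1))] with t ht
        have h1 := ENNReal.toReal_mono htop ht
        rw [toReal_enorm, Real.norm_eq_abs] at h1
        exact h1
      have h4 := hlow m hm w _ _ hu hv _ (transfer r ξ w _ hae)
      rw [ENNReal.ofReal_le_iff_le_toReal htop]
      refine le_trans ?_ h4
      gcongr
      linarith
  · by_contra hcon
    push Not at hcon
    have hlt : ∀ t : Fin 2 → ℝ, (∀ j, t j ∈ Set.Icc (0:ℝ) 1) →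
        |disc r w (fun i => ξ i 0) (fun i => ξ i 1) (t 0, t 1)| < C/2 * Real.log m / (m:ℝ)^r := hcon
    have hae : ∀ᵐ t ∂((volume : Measure (Fin 2 → ℝ)).restrict (Set.Icc 0 1)),
          |disc r w (fun i => ξ i 0) (fun i => ξ i 1) (t 0, t 1)| ≤ C/2 * Real.log m / (m:ℝ)^r := by
      filter_upwards [ae_restrict_mem measurableSet_Icc] with t ht
      exact (hlt t (fun j => ⟨ht.1 j, ht.2 j⟩)).le
    have h4 := hlow m hm w _ _ hu hv _ (transfer r ξ w _ hae)
    have h5 : 0 < C/2 * Real.log m / (m:ℝ)^r :=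
      lt_of_le_of_lt (abs_nonneg _) (hlt (fun _ => 0) (fun _ => ⟨le_rfl, zero_le_one⟩))
    have h6 : C * Real.log m / (m:ℝ)^r = 2 * (C/2 * Real.log m / (m:ℝ)^r) := by ring
    rw [h6] at h4
    linarith

end Pool.Agent.Results.MP_8bf294_an.PlanarCase
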